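import Pool.Agent.Helper20.RL.St1

/-!
# Project RL (MP_cb927e_an): module LAC (chains)
-/

set_option autoImplicit false

open MeasureTheory Set Filter Topology
open scoped ENNReal RealInnerProductSpace

namespace Pool.Agent.Helper48.RL

open Pool.Agent.Helper68.LM (Pl BB Bd Av HL ft fm DQ)
open Pool.Agent.Helper20.RG Pool.Agent.Helper20.RL

private theorem ch_mono (F : Set Pl) (U : ℤ → Set Pl) (Δ : ℤ) (n : ℕ) {k k' : ℤ} (h : k ≤ k') :
    Ch F U Δ n k ⊆ Ch F U Δ n k' := by
  cases n with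
  | zero => exact fun z hz => hz
  | succ n =>
    rintro z ⟨hF, k₁, hk, hU, hc⟩
    exact ⟨hF, k₁, hk.trans h, hU, hc⟩

theorem hLAC (hLGR : StLGR) (hLMX : StLMX) (hLFM : StLFM) : StLAC := by
  intro s w w' m K F α β U hF hα hαβ hww hU hUc n
  have hβ : 0 < β := lt_of_lt_of_le hα hαβ
  obtain ⟨g1, g2, g3, -, -⟩ := hLGR
  set Δ := w' - w with hΔ
  have hΔ0 : 0 ≤ Δ := by omega
  have hmo : ∀ c : ℤ, Monotone (fun k : ℤ => k + c) := fun c a b h => by
    show a + c ≤ b + c
    omega
  have hms : ∀ c : ℤ, Monotone (fun k : ℤ => k - c) := fun c a b h => by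
    show a - c ≤ b - c
    omega
  have claim : ∀ n : ℕ, ∀ (k : ℤ) (y : Pl), Rich F s (k + w) (k - m) β y →
      volume (Ch F U Δ n (k - Δ) ∩ RQ s (k + w) (k - m) y) ≤
        ENNReal.ofReal ((α / β) ^ n) * volume (F ∩ RQ s (k + w) (k - m) y) := by
    intro n
    induction n with
    | zero =>
      intro k y hy
      simp [Ch]
    | succ n ih =>
      intro k y hy
      have h1 : volume (Ch F U Δ (n + 1) (k - Δ) ∩ RQ s (k + w) (k - m) y) ≤
          (ENNReal.ofReal ((α / β) ^ n) * ENNReal.ofReal α) * volume (RQ s (k + w) (k - m) y ∩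
            ⋃ k' ∈ Iic (k - Δ), {z | ¬ Rich F s (k' + w') (k' - m) α z}) := by
        refine hLMX s (fun k' => k' + w') (fun k' => k' - m) (Iic (k - Δ))
          (fun k' => {z | ¬ Rich F s (k' + w') (k' - m) α z}) _ _ _ (hmo w') (hms m) bddAbove_Iic
          ?_ ?_ ?_
        · intro k' _ z hz z' hz' h
          exact hz (((hLFM.1 F s _ _ α).2 z z' hz').1 h)
        · rintro z ⟨⟨-, k₁, hk, hUk, -⟩, -⟩
          exact mem_iUnion₂.2 ⟨k₁, hk, (hU k₁ z hUk).2⟩
        · intro k' hk' z₀ hz₀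
          have hk'' : k' ≤ k - Δ := hk'
          change volume ({z | z ∈ Ch F U Δ (n + 1) (k - Δ) ∩ RQ s (k + w) (k - m) y ∧
            ∀ k'' ∈ Iic (k - Δ), k' < k'' → z ∉ {z | ¬ Rich F s (k'' + w') (k'' - m) α z}} ∩
              RQ s (k' + w') (k' - m) z₀) ≤ (ENNReal.ofReal ((α / β) ^ n) * ENNReal.ofReal α) *
              volume (RQ s (k + w) (k - m) y ∩ RQ s (k' + w') (k' - m) z₀)
          set X' := {z | z ∈ Ch F U Δ (n + 1) (k - Δ) ∩ RQ s (k + w) (k - m) y ∧
            ∀ k'' ∈ Iic (k - Δ), k' < k'' → z ∉ {z | ¬ Rich F s (k'' + w') (k'' - m) α z}} ∩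
              RQ s (k' + w') (k' - m) z₀ with hX'
          rcases X'.eq_empty_or_nonempty with he | ⟨z1, hz1⟩
          · rw [he]
            simp
          · have hsub : RQ s (k' + w') (k' - m) z₀ ⊆ RQ s (k + w) (k - m) y := by
              have e1 : RQ s (k' + w') (k' - m) z1 = RQ s (k' + w') (k' - m) z₀ := g2 s _ _ z₀ z1 hz1.2
              have e2 : RQ s (k + w) (k - m) z1 = RQ s (k + w) (k - m) y := g2 s _ _ y z1 hz1.1.1.2
              rw [← e1, ← e2]
              exact g3 s _ _ _ _ z1 (by omega) (by omega)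
            rw [inter_eq_self_of_subset_right hsub]
            have key : ∀ z ∈ X', ∃ k₁ ≤ k', z ∈ U k₁ ∧ z ∈ Ch F U Δ n (k₁ - Δ) := by
              rintro z ⟨⟨⟨⟨-, k₁, hk₁, hUk, hc⟩, -⟩, hno⟩, -⟩
              refine ⟨k₁, ?_, hUk, hc⟩
              by_contra hlt
              exact hno k₁ hk₁ (not_le.1 hlt) (hU k₁ z hUk).2
            have h2 : volume X' ≤ ENNReal.ofReal ((α / β) ^ n) *
                volume ((F ∩ RQ s (k' + w') (k' - m) z₀) ∩
                  ⋃ k₁ ∈ Iic k', {z | Rich F s (k₁ + w) (k₁ - m) β z}) := by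
              refine hLMX s (fun k₁ => k₁ + w) (fun k₁ => k₁ - m) (Iic k')
                (fun k₁ => {z | Rich F s (k₁ + w) (k₁ - m) β z}) _ _ _ (hmo w) (hms m) bddAbove_Iic
                ?_ ?_ ?_
              · intro k₁ _ z hz z' hz'
                exact ((hLFM.1 F s _ _ β).2 z z' hz').2 hz
              · intro z hz
                obtain ⟨k₁, hk₁, hUk₁, -⟩ := key z hz
                exact mem_iUnion₂.2 ⟨k₁, hk₁, (hU k₁ z hUk₁).1⟩
              · intro k₁ hk₁ z₁ hz₁
                have hk₁' : k₁ ≤ k' := hk₁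
                change volume ({z | z ∈ X' ∧ ∀ k'' ∈ Iic k', k₁ < k'' →
                  z ∉ {z | Rich F s (k'' + w) (k'' - m) β z}} ∩ RQ s (k₁ + w) (k₁ - m) z₁) ≤
                  ENNReal.ofReal ((α / β) ^ n) *
                    volume ((F ∩ RQ s (k' + w') (k' - m) z₀) ∩ RQ s (k₁ + w) (k₁ - m) z₁)
                rcases eq_empty_or_nonempty ({z | z ∈ X' ∧ ∀ k'' ∈ Iic k', k₁ < k'' →
                  z ∉ {z | Rich F s (k'' + w) (k'' - m) β z}} ∩ RQ s (k₁ + w) (k₁ - m) z₁) with
                  he | ⟨z2, hz2⟩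
                · rw [he]
                  simp
                · have hsub2 : RQ s (k₁ + w) (k₁ - m) z₁ ⊆ RQ s (k' + w') (k' - m) z₀ := by
                    have e1 : RQ s (k₁ + w) (k₁ - m) z2 = RQ s (k₁ + w) (k₁ - m) z₁ :=
                      g2 s _ _ z₁ z2 hz2.2
                    have e2 : RQ s (k' + w') (k' - m) z2 = RQ s (k' + w') (k' - m) z₀ :=
                      g2 s _ _ z₀ z2 hz2.1.1.2
                    rw [← e1, ← e2]
                    exact g3 s _ _ _ _ z2 (by omega) (by omega)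
                  rw [inter_assoc, inter_eq_self_of_subset_right hsub2]
                  refine le_trans (measure_mono ?_) (ih k₁ z₁ hz₁)
                  rintro z ⟨⟨hzX, hno⟩, hzc⟩
                  refine ⟨?_, hzc⟩
                  obtain ⟨k₂, hk₂, hUk₂, hc₂⟩ := key z hzX
                  have hle : k₂ ≤ k₁ := by
                    by_contra hlt
                    exact hno k₂ hk₂ (not_le.1 hlt) (hU k₂ z hUk₂).1
                  exact ch_mono F U Δ n (by omega) hc₂
            refine h2.trans ?_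
            rw [mul_assoc]
            refine mul_le_mul_right (le_trans (measure_mono inter_subset_left) ?_) _
            have h3 : volume (F ∩ RQ s (k' + w') (k' - m) z₀) <
                ENNReal.ofReal (α * (2 : ℝ) ^ (k' + w' + (k' - m))) := not_le.1 hz₀
            rw [ENNReal.ofReal_mul hα.le, ← (g1 s (k' + w') (k' - m) z₀).2.1] at h3
            exact h3.le
      refine h1.trans ?_
      have h4 : ENNReal.ofReal β * volume (RQ s (k + w) (k - m) y) ≤
          volume (F ∩ RQ s (k + w) (k - m) y) := by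
        rw [(g1 s (k + w) (k - m) y).2.1, ← ENNReal.ofReal_mul hβ.le]
        exact hy
      have h5 : ENNReal.ofReal α = ENNReal.ofReal (α / β) * ENNReal.ofReal β := by
        rw [← ENNReal.ofReal_mul (by positivity)]
        congr 1
        field_simp
      calc ENNReal.ofReal ((α / β) ^ n) * ENNReal.ofReal α * volume (RQ s (k + w) (k - m) y ∩
            ⋃ k' ∈ Iic (k - Δ), {z | ¬ Rich F s (k' + w') (k' - m) α z})
          ≤ ENNReal.ofReal ((α / β) ^ n) * ENNReal.ofReal α * volume (RQ s (k + w) (k - m) y) :=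
            mul_le_mul_right (measure_mono inter_subset_left) _
        _ = ENNReal.ofReal ((α / β) ^ (n + 1)) *
            (ENNReal.ofReal β * volume (RQ s (k + w) (k - m) y)) := by
            rw [pow_succ, ENNReal.ofReal_mul (by positivity), h5]
            ring
        _ ≤ ENNReal.ofReal ((α / β) ^ (n + 1)) * volume (F ∩ RQ s (k + w) (k - m) y) :=
            mul_le_mul_right h4 _
  refine hLMX s (fun k => k + w) (fun k => k - m) (Iic K) U _ _ _ (hmo w) (hms m) bddAbove_Iic
    (fun k _ y hy => hUc k y hy) ?_ ?_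
  · rintro z ⟨-, k₁, hk, hUk, -⟩
    exact mem_iUnion₂.2 ⟨k₁, hk, hUk⟩
  · intro k hk y hy
    change volume ({z | z ∈ Ch F U Δ (n + 1) K ∧ ∀ k' ∈ Iic K, k < k' → z ∉ U k'} ∩
      RQ s (k + w) (k - m) y) ≤ ENNReal.ofReal ((α / β) ^ n) * volume (F ∩ RQ s (k + w) (k - m) y)
    refine le_trans (measure_mono ?_) (claim n k y (hU k y hy).1)
    rintro z ⟨⟨⟨-, k₁, hk₁, hUk₁, hc⟩, hno⟩, hzc⟩
    refine ⟨?_, hzc⟩
    have hle : k₁ ≤ k := by
      by_contra hlt
      exact hno k₁ hk₁ (not_le.1 hlt) hUk₁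
    exact ch_mono F U Δ n (by omega) hc

end Pool.Agent.Helper48.RL
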