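import Pool.Agent.Helper20.RL.St3

/-!
# Project RL (MP_cb927e_an): module LAM (age classes)
-/

set_option autoImplicit false

open MeasureTheory Set Filter Topology
open scoped ENNReal RealInnerProductSpace

namespace Pool.Agent.Helper48.RL

open Pool.Agent.Helper68.LM (Pl BB Bd Av HL ft fm DQ)
open Pool.Agent.Helper20.RG Pool.Agent.Helper20.RL

private theorem meas_sq (E : Set Pl) (hE : MeasurableSet E) (r : ℝ) :
    Measurable (fun z : Pl => volume (E ∩ Sq z r)) := by
  have h0 : Measurable (fun p : Pl × Pl => p.2 0 - p.1 0) := by fun_prop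
  have h1 : Measurable (fun p : Pl × Pl => p.2 1 - p.1 1) := by fun_prop
  have hs : MeasurableSet {p : Pl × Pl | p.2 ∈ E ∧ |p.2 0 - p.1 0| ≤ r ∧ |p.2 1 - p.1 1| ≤ r} := by
    refine (measurable_snd hE).inter (MeasurableSet.inter ?_ ?_)
    · exact measurableSet_le h0.abs measurable_const
    · exact measurableSet_le h1.abs measurable_const
  exact measurable_measure_prodMk_left hs

private theorem ck_meas (E : Set Pl) (hE : MeasurableSet E) (D : ℝ) (k : ℤ) :
    MeasurableSet (Ck E D k) := by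
  have e : Ck E D k = E ∩ ⋂ k' : ℤ, ⋂ _ : k ≤ k',
      {z | volume (E ∩ Sq z ((2 : ℝ) ^ k')) ≤ ENNReal.ofReal (D * (4 : ℝ) ^ k')} := by
    ext z
    simp only [Ck, mem_ofPred_eq, mem_inter_iff, mem_iInter]
  rw [e]
  exact hE.inter (MeasurableSet.iInter fun k' => MeasurableSet.iInter fun _ =>
    measurableSet_le (meas_sq E hE _) measurable_const)

private theorem ck_mono (E : Set Pl) (D : ℝ) {k k' : ℤ} (h : k ≤ k') : Ck E D k ⊆ Ck E D k' :=
  fun _ hz => ⟨hz.1, fun k'' hk'' => hz.2 k'' (h.trans hk'')⟩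

private theorem fa_sub (E : Set Pl) (D : ℝ) (i : ℕ) (l : ℤ) : Fa E D i l ⊆ E := fun _ hz => hz.1.1

private theorem fa_meas (E : Set Pl) (hE : MeasurableSet E) (D : ℝ) (i : ℕ) (l : ℤ) :
    MeasurableSet (Fa E D i l) := (ck_meas E hE D _).diff (ck_meas E hE D _)

private theorem fa_disj (E : Set Pl) (D : ℝ) (i : ℕ) {l l' : ℤ} (h : l + 4 ≤ l') :
    Disjoint (Fa E D i l) (Fa E D i l') := by
  rw [Set.disjoint_left]
  intro z hz hz'
  refine hz'.2 (ck_mono E D ?_ hz.1)
  have h2 : (0 : ℤ) < 2 ^ i := by positivity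
  nlinarith

theorem hLAM (_hPT : StPT) : StLAM := by
  intro E D hE hD
  refine ⟨ck_meas E hE.1 D, fun i l => ⟨⟨fa_meas E hE.1 D i l, hE.2.subset (fa_sub E D i l)⟩,
    fa_sub E D i l⟩, ?_, ?_⟩
  · intro i
    rw [← (Int.divModEquiv 4).symm.tsum_eq (fun l : ℤ => volume (Fa E D i l)), ENNReal.tsum_prod',
      ENNReal.tsum_comm, tsum_fintype]
    have h1 : ∀ r : Fin 4, ∑' j : ℤ, volume (Fa E D i ((Int.divModEquiv 4).symm (j, r))) ≤ volume E := by
      intro r
      rw [← measure_iUnion]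
      · exact measure_mono (iUnion_subset fun j => fa_sub E D i _)
      · intro j j' hjj
        rcases lt_or_gt_of_ne hjj with h | h
        · apply fa_disj
          simp only [Int.divModEquiv_symm_apply]
          push_cast
          omega
        · apply Disjoint.symm
          apply fa_disj
          simp only [Int.divModEquiv_symm_apply]
          push_cast
          omega
      · exact fun j => fa_meas E hE.1 D i _
    refine (Finset.sum_le_sum fun r _ => h1 r).trans ?_
    simp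
  · intro i l y k' hk'
    rcases eq_empty_or_nonempty (Fa E D i l ∩ Sq y ((2 : ℝ) ^ k')) with he | ⟨z, hz⟩
    · rw [he]
      simp
    · have h1 := hz.1.1.2 (k' + 1) (by omega)
      have e1 : D * (4 : ℝ) ^ (k' + 1) = 4 * D * (4 : ℝ) ^ k' := by
        rw [zpow_add₀ (by norm_num : (4 : ℝ) ≠ 0), zpow_one]
        ring
      rw [e1] at h1
      refine le_trans (measure_mono ?_) h1
      rintro v ⟨hv1, hv2⟩
      refine ⟨fa_sub E D i l hv1, ?_⟩
      have e2 : (2 : ℝ) ^ (k' + 1) = 2 ^ k' + 2 ^ k' := by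
        rw [zpow_add₀ (by norm_num : (2 : ℝ) ≠ 0), zpow_one]
        ring
      have a1 := abs_le.1 hv2.1
      have a2 := abs_le.1 hv2.2
      have b1 := abs_le.1 hz.2.1
      have b2 := abs_le.1 hz.2.2
      refine ⟨abs_le.2 ⟨?_, ?_⟩, abs_le.2 ⟨?_, ?_⟩⟩ <;> rw [e2] <;> linarith [a1.1, a1.2, a2.1, a2.2, b1.1, b1.2, b2.1, b2.2]

end Pool.Agent.Helper48.RL
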